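import Pool.Agent.KS6_60.BL.D

/-!
# Ball graphs with restricted radii

`BallE d R a`: the graph `a` is the intersection graph of closed balls of `EuclideanSpace ℝ (Fin d)`
with positive radii in `R`.  `BallH d R a`: the same in hyperbolic space `Hyp d` (hyperboloid model,
curvature `-1`).  `ETR`, `Fm` (quantifier-free formulas), `Red` (polynomial-time many-one reductions)
and `Gr` (graphs as inputs) are those of the library.
-/

namespace Pool.Agent.Results.MP_065e13_lc.RestrictedRadii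

open Pool.Agent.KS6_60.Lib.CX Pool.Agent.KS6_60.Lib.ER Pool.Agent.KS6_60.Lib.SG Pool.Agent.KS6_60.UB
  Pool.Agent.KS6_60.BL

/-- every decision problem in `∃ℝ` reduces to `B` -/
def ERHard {β : Type} [Enc β] (B : β → Prop) : Prop :=
  ∀ (α : Type) [Enc α] (A : α → Prop), Red A ETR → Red A B

/-- `B` is `∃ℝ`-complete -/
def ERComplete {β : Type} [Enc β] (B : β → Prop) : Prop := Red B ETR ∧ ERHard B

/-- `a` is a ball graph of `ℝ^d` and of `ℍ^d` with radii in `R`, for every set `R` of positive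
radii with nonempty interior -/
def InAll (d : ℕ) (a : Gr) : Prop :=
  ∀ R : Set ℝ, (interior (R ∩ Set.Ioi 0)).Nonempty → BallE d R a ∧ BallH d R a

theorem ERHard.of_red {β : Type} [Enc β] {B : β → Prop} (h : Red ETR B) : ERHard B := by
  obtain ⟨g, hg, h⟩ := h
  exact fun α _ A ⟨f, hf, h'⟩ => ⟨fun a => g (f a), hg.comp hf, fun a => (h' a).trans (h _)⟩

theorem sandwich (d : ℕ) (hd : 2 ≤ d) (𝒞 : Gr → Prop) (h1 : ∀ a, InAll d a → 𝒞 a)
    (h2 : ∀ a, 𝒞 a → BallE d Set.univ a) : ERHard 𝒞 := by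
  obtain ⟨m, rfl⟩ : ∃ m, d = m + 2 := ⟨d - 2, by omega⟩
  obtain ⟨N, _, _, h⟩ := Pool.Agent.KS6_60.Lib.SG.hard m
  classical
  refine ERHard.of_red (h _ _ _ KS6_60.BL.pt_red (fun I hI => h1 _ fun R ⟨ρ, hr⟩ => ?_) fun I hI => sound_E I (h2 _ hI))
  have h0 := mem_interior_iff_mem_nhds.1 hr
  have hR : R ∈ nhds ρ := Filter.mem_of_superset h0 Set.inter_subset_left
  have r0 : 0 < ρ := (mem_of_mem_nhds h0).2
  exact ⟨ballE_of r0 hR I hI, ballH_of r0 hR I hI⟩

/-- **Ball graph recognition with restricted radii, for every dimension `d ≥ 2`.**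
(1) Recognising intersection graphs of balls in `ℝ^d` (arbitrary radii) is `∃ℝ`-complete.
(2) Every class of graphs which contains the graphs that are ball graphs of `ℝ^d` and of `ℍ^d` with
radii in `R`, for all sets `R` of radii with nonempty interior, and which consists of ball graphs of
`ℝ^d`, is `∃ℝ`-hard to recognise.
(3) For every set `R` of radii with nonempty interior described by a quantifier-free formula,
recognising the intersection graphs of balls in `ℝ^d` with radii in `R` is `∃ℝ`-complete.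
(4) In particular for the radii in `[1, λ]`, for every rational `λ > 1`.
(5) The same as (3) in hyperbolic space `ℍ^d`, for formulas in `cosh r`. -/
theorem result (d : ℕ) (hd : 2 ≤ d) :
    ERComplete (BallE d Set.univ) ∧
    (∀ 𝒞 : Gr → Prop, (∀ a, InAll d a → 𝒞 a) → (∀ a, 𝒞 a → BallE d Set.univ a) → ERHard 𝒞) ∧
    (∀ χ : Fm, (interior ({r : ℝ | χ.Holds fun _ => r} ∩ Set.Ioi 0)).Nonempty →
      ERComplete (BallE d {r : ℝ | χ.Holds fun _ => r})) ∧
    (∀ p q : ℕ, 0 < q → q < p → ERComplete (BallE d (Set.Icc (1 : ℝ) ((p : ℝ) / q)))) ∧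
    (∀ χ : Fm, (interior ({r : ℝ | χ.Holds fun _ => Real.cosh r} ∩ Set.Ioi 0)).Nonempty →
      ERComplete (BallH d {r : ℝ | χ.Holds fun _ => Real.cosh r})) := by
  have s := sandwich d hd
  have mono : ∀ (R : Set ℝ) (a : Gr), BallE d R a → BallE d Set.univ a := fun R a ⟨c, ρ, h, q⟩ =>
    ⟨c, ρ, fun v => ⟨(h v).1, trivial⟩, q⟩
  have euc : ∀ χ : Fm, (interior ({r : ℝ | χ.Holds fun _ => r} ∩ Set.Ioi 0)).Nonempty →
      ERComplete (BallE d {r : ℝ | χ.Holds fun _ => r}) := fun χ h =>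
    ⟨memb_E d χ, s _ (fun a ha => (ha _ h).1) (mono _)⟩
  refine ⟨?_, s, euc, fun p q hq hpq => ?_, fun χ h => ⟨memb_H d χ, s _ (fun a ha => (ha _ h).2) fun a ha => ha.toE⟩⟩
  · have := euc (.eq (.num 0) (.num 0)) ⟨1, by simp [Fm.Holds]⟩
    simpa [Fm.Holds, Set.setOf_true] using this
  · have q0 : (0 : ℝ) < q := by exact_mod_cast hq
    have e : {r : ℝ | (Fm.and (.le (.num 1) (.var 0)) (.le (.mul (.num q) (.var 0)) (.num p))).Holds fun _ => r} =
        Set.Icc (1 : ℝ) ((p : ℝ) / q) := by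
      ext r
      simp only [Fm.Holds, Tm.eval, Set.mem_setOf_eq, Set.mem_Icc, Int.cast_one, Int.cast_natCast, le_div_iff₀ q0, mul_comm r]
    have k := euc (.and (.le (.num 1) (.var 0)) (.le (.mul (.num q) (.var 0)) (.num p))) (by
      rw [e]
      have h1 : (1 : ℝ) < (p : ℝ) / q := by rw [lt_div_iff₀ q0, one_mul]; exact_mod_cast hpq
      obtain ⟨x, x1, x2⟩ := exists_between h1
      refine ⟨x, mem_interior.2 ⟨Set.Ioo 1 ((p : ℝ) / q), fun y hy => ⟨⟨hy.1.le, hy.2.le⟩, ?_⟩, isOpen_Ioo, x1, x2⟩⟩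
      exact zero_lt_one.trans hy.1)
    rwa [e] at k

end Pool.Agent.Results.MP_065e13_lc.RestrictedRadii
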